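import Pool.Agent.J6H49.BC.Stm

/-!
Module B1 of MP_8ec908_lc (helper49): the transfer from the real structure.
-/

set_option autoImplicit false

namespace Pool.Agent.J6H49.BC

open Pool.Agent.TH672 (Fm Str upd varStr num digits LogK ReplK Sw Pv upd_same upd_ne)
open Pool.Agent.TH636.BC (Fml Step IsProof str strs Proves code blk inst robinson Arith PrRel
  Numerates con conAt Cx lt col Ef Cf TE hd bs tl appn St Ok Agr Eqs Erel Crel AddS MulS SuccS Vlt)
open Pool.Agent.TH197.J1545 (D DM Dop Dadd Dmul Dsucc)

/-! ### Representatives -/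

/-- the representative of the class of `j` -/
noncomputable def rep (m : ℕ) (s : St) (j : ℕ) : ℕ :=
  sInf {i | i < m ∧ (s.v i).isRight ∧ s.c i j = 0}

variable {m : ℕ} {s t : St}

lemma rep_mem (h : Ok m s) {j : ℕ} (hj : j < m) (hr : (s.v j).isRight) :
    rep m s j < m ∧ (s.v (rep m s j)).isRight ∧ s.c (rep m s j) j = 0 :=
  Nat.sInf_mem (s := {i | i < m ∧ (s.v i).isRight ∧ s.c i j = 0}) ⟨j, hj, hr, h.refl j hj⟩

lemma rep_eq (h : Ok m s) {i j : ℕ} (hi : i < m) (hj : j < m) (hri : (s.v i).isRight)
    (hrj : (s.v j).isRight) (hc : s.c i j = 0) : rep m s i = rep m s j := by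
  unfold rep
  congr 1
  ext a
  simp only [Set.mem_ofPred_eq]
  refine and_congr_right fun ha => and_congr_right fun _ => ?_
  rw [h.symm a ha i hi, h.symm a ha j hj, h.cong i hi j hj a ha hri hrj hc]

lemma eq_of_rep (h : Ok m s) {i j : ℕ} (hi : i < m) (hj : j < m) (hri : (s.v i).isRight)
    (hrj : (s.v j).isRight) (hc : rep m s i = rep m s j) : s.c i j = 0 := by
  obtain ⟨h1, h2, h3⟩ := rep_mem h hi hri
  obtain ⟨_, _, h4⟩ := rep_mem h hj hrj
  rw [← hc] at h4
  rw [← h.cong _ h1 i hi j hj h2 hri h3, h4]

/-! ### Quantifiers -/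

lemma realz_upd {v : ℕ → DM} {x : ℕ} (hs : Ok m s) (ht : Ok m t) (hx : x < m) (hA : Agr m x s t)
    (hv : Realz m s v) (a : DM) (h1 : ∀ n, t.v x = .inl n ↔ a = .inl n)
    (h2 : ∀ h, t.v x = .inr h → ∃ k, a = .inr (k, h))
    (h3 : ∀ j < m, j ≠ x → (t.v x).isRight → (t.v j).isRight → (a = v j ↔ t.c x j = 0)) :
    Realz m t (upd v x a) where
  num i hi n := by
    by_cases h : i = x
    · subst h
      rw [upd_same]
      exact h1 n
    · rw [upd_ne _ _ h, ← hA.1 i hi h]
      exact hv.num i hi n
  node i hi n hn := by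
    by_cases h : i = x
    · subst h
      rw [upd_same]
      exact h2 n hn
    · rw [upd_ne _ _ h]
      rw [← hA.1 i hi h] at hn
      exact hv.node i hi n hn
  eqv i hi j hj hri hrj := by
    by_cases h : i = x
    · subst h
      rw [upd_same]
      by_cases h' : j = i
      · subst h'
        rw [upd_same]
        exact ⟨fun _ => ht.refl j hj, fun _ => rfl⟩
      · rw [upd_ne _ _ h']
        exact h3 j hj h' hri hrj
    · rw [upd_ne _ _ h]
      by_cases h' : j = x
      · subst h'
        rw [upd_same, ht.symm i hi j hj, ← h3 i hi h hrj hri]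
        exact eq_comm
      · rw [upd_ne _ _ h', ← hA.2 i hi j hj h h']
        refine hv.eqv i hi j hj ?_ ?_
        · rw [hA.1 i hi h]; exact hri
        · rw [hA.1 j hj h']; exact hrj

lemma right_iff {v : ℕ → DM} (hv : Realz m s v) {i : ℕ} (hi : i < m) :
    (s.v i).isRight ↔ (v i).isRight := by
  rcases h : s.v i with a | a
  · rw [(hv.num i hi a).1 h]
    simp
  · obtain ⟨k, hk⟩ := hv.node i hi a h
    rw [hk]
    simp

/-- the values are realized by states -/
lemma exists_state (hE : ExtT) {v : ℕ → DM} {x : ℕ} (hs : Ok m s) (hx : x < m)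
    (hv : Realz m s v) (a : DM) : ∃ t, Ok m t ∧ Agr m x s t ∧ Realz m t (upd v x a) := by
  rcases a with n | ⟨k, h⟩
  · obtain ⟨t, h1, h2, h3, _⟩ := hE m s x (fun _ => False) (.inl n) (fun _ => 0) hs hx
      (by simp) (by simp) (by simp) (by simp) (by simp) (by simp) (by simp)
    refine ⟨t, h1, h2, realz_upd hs h1 hx h2 hv _ (fun n' => ?_) (fun h' hh => ?_)
      fun j _ _ hr => ?_⟩
    · rw [h3]
      simp
    · rw [h3] at hh
      simp at hh
    · rw [h3] at hr
      simp at hr
  · by_cases hj : ∃ j < m, j ≠ x ∧ v j = .inr (k, h)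
    · obtain ⟨j, hj, hjx, hvj⟩ := hj
      have hrj : (s.v j).isRight := by rw [right_iff hv hj, hvj]; rfl
      have hsj : s.v j = .inr h := by
        rcases h' : s.v j with b | b
        · rw [h'] at hrj; simp at hrj
        · obtain ⟨k', hk'⟩ := hv.node j hj b h'
          rw [hvj] at hk'
          simp only [Sum.inr.injEq, Prod.mk.injEq] at hk'
          rw [hk'.2]
      obtain ⟨t, h1, h2, h3, h4⟩ := hE m s x (fun i => i < m ∧ i ≠ x) (.inr h) (fun i => s.c j i)
        hs hx (fun i hi => hi)
        (fun i hi hh => hs.norm j hj i hi.1 (Or.inr (by simpa using hh)))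
        (fun i hi => hs.le j hj i hi.1)
        (fun i hi _ hr hc => by rw [← hs.val j hj i hi.1 hrj hr hc, hsj])
        (fun i i' hi hi' _ hr hc => hs.cong j hj i hi.1 i' hi'.1 hrj hr hc)
        (fun i i' hi hi' hr hr' hc => by
          change s.c j i = s.c j i'
          rw [hs.symm j hj i hi.1, hs.symm j hj i' hi'.1]
          exact hs.cong i hi.1 i' hi'.1 j hj hr hr' hc)
        (fun i i' hi hi' he he' => hs.tri j hj i hi.1 i' hi'.1 he' (he'.symm.trans he))
      refine ⟨t, h1, h2, realz_upd hs h1 hx h2 hv _ (fun n' => ?_) (fun h' hh => ?_)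
        fun i hi hix _ hr => ?_⟩
      · rw [h3]
        simp
      · rw [h3] at hh
        simp only [Sum.inr.injEq] at hh
        exact ⟨k, by rw [hh]⟩
      · rw [h4 i ⟨hi, hix⟩, ← hvj]
        refine hv.eqv j hj i hi hrj ?_
        rw [h2.1 i hi hix]
        exact hr
    · classical
      have hrep : ∀ i, i < m → (s.v i).isRight → rep m s i + 1 ≤ m := by
        intro i hi hr
        exact (rep_mem hs hi hr).1
      obtain ⟨t, h1, h2, h3, h4⟩ := hE m s x (fun i => i < m ∧ i ≠ x) (.inr h)
        (fun i => if (s.v i).isRight then rep m s i + 1 else 0)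
        hs hx (fun i hi => hi)
        (fun i hi hh => by
          have h5 : ¬ (s.v i).isRight := by
            rcases h' : s.v i with b | b
            · simp
            · rw [h'] at hh; simp at hh
          exact if_neg h5)
        (fun i hi => by
          change (if (s.v i).isRight then rep m s i + 1 else 0) ≤ m
          split_ifs with hr
          · exact hrep i hi.1 hr
          · exact Nat.zero_le _)
        (fun i hi _ hr hc => by
          change (if (s.v i).isRight then rep m s i + 1 else 0) = 0 at hc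
          rw [if_pos hr] at hc
          omega)
        (fun i i' hi hi' _ hr hc => by
          change (if (s.v i).isRight then rep m s i + 1 else 0) = 0 at hc
          rw [if_pos hr] at hc
          omega)
        (fun i i' hi hi' hr hr' hc => by
          change (if (s.v i).isRight then rep m s i + 1 else 0) =
            if (s.v i').isRight then rep m s i' + 1 else 0
          rw [if_pos hr, if_pos hr', rep_eq hs hi.1 hi'.1 hr hr' hc])
        (fun i i' hi hi' he he' => by
          change (if (s.v i).isRight then rep m s i + 1 else 0) = 0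
          change (if (s.v i).isRight then rep m s i + 1 else 0) =
            if (s.v i').isRight then rep m s i' + 1 else 0 at he
          change (if (s.v i).isRight then rep m s i + 1 else 0) = s.c i i' at he'
          by_cases hr : (s.v i).isRight
          · rw [if_pos hr] at he he' ⊢
            by_cases hr' : (s.v i').isRight
            · rw [if_pos hr'] at he
              rw [he', eq_of_rep hs hi.1 hi'.1 hr hr' (by omega)]
            · rw [if_neg hr'] at he
              omega
          · rw [if_neg hr])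
      refine ⟨t, h1, h2, realz_upd hs h1 hx h2 hv _ (fun n' => ?_) (fun h' hh => ?_)
        fun i hi hix _ hr => ?_⟩
      · rw [h3]
        simp
      · rw [h3] at hh
        simp only [Sum.inr.injEq] at hh
        exact ⟨k, by rw [hh]⟩
      · rw [h4 i ⟨hi, hix⟩]
        rw [← h2.1 i hi hix] at hr
        rw [if_pos hr]
        constructor
        · intro he
          exact absurd ⟨i, hi, hix, he.symm⟩ hj
        · intro he
          omega

lemma exists_big (m : ℕ) (v : ℕ → DM) : ∃ K, ∀ i < m, ∀ k h, v i = .inr (k, h) → k < K := by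
  induction m with
  | zero => exact ⟨0, fun i hi => absurd hi (by omega)⟩
  | succ m ih =>
    obtain ⟨K, hK⟩ := ih
    rcases h : v m with a | ⟨k, h'⟩
    · refine ⟨K, fun i hi k h' hv => ?_⟩
      rcases Nat.lt_succ_iff_lt_or_eq.1 hi with h1 | h1
      · exact hK i h1 k h' hv
      · subst h1
        rw [h] at hv
        simp at hv
    · refine ⟨max K (k + 1), fun i hi k2 h2 hv => ?_⟩
      rcases Nat.lt_succ_iff_lt_or_eq.1 hi with h1 | h1
      · exact (hK i h1 k2 h2 hv).trans_le (le_max_left _ _)
      · subst h1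
        rw [h] at hv
        simp only [Sum.inr.injEq, Prod.mk.injEq] at hv
        omega

/-- the states are realized by values -/
lemma exists_value {v : ℕ → DM} {x : ℕ} (hs : Ok m s) (ht : Ok m t) (hx : x < m)
    (hA : Agr m x s t) (hv : Realz m s v) : ∃ a : DM, Realz m t (upd v x a) := by
  rcases htx : t.v x with n | h
  · refine ⟨.inl n, realz_upd hs ht hx hA hv _ (fun n' => ?_) (fun h' hh => ?_)
      fun j _ _ hr => ?_⟩
    · rw [htx]
      simp
    · rw [htx] at hh
      simp at hh
    · rw [htx] at hr
      simp at hr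
  · have hrx : (t.v x).isRight := by rw [htx]; rfl
    by_cases hj : ∃ j < m, j ≠ x ∧ (t.v j).isRight ∧ t.c x j = 0
    · obtain ⟨j, hj, hjx, hr, hc⟩ := hj
      have h1 : s.v j = .inr h := by
        rw [hA.1 j hj hjx, ← ht.val x hx j hj hrx hr hc, htx]
      have h2 : (s.v j).isRight := by rw [h1]; rfl
      refine ⟨v j, realz_upd hs ht hx hA hv _ (fun n' => ?_) (fun h' hh => ?_)
        fun i hi hix _ hri => ?_⟩
      · rw [htx, ← hv.num j hj n', h1]
      · rw [htx] at hh
        simp only [Sum.inr.injEq] at hh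
        subst hh
        exact hv.node j hj h h1
      · rw [ht.cong x hx j hj i hi hrx hr hc, ← hA.2 j hj i hi hjx hix]
        refine hv.eqv j hj i hi h2 ?_
        rw [hA.1 i hi hix]
        exact hri
    · obtain ⟨K, hK⟩ := exists_big m v
      refine ⟨.inr (K, h), realz_upd hs ht hx hA hv _ (fun n' => ?_) (fun h' hh => ?_)
        fun i hi hix _ hri => ?_⟩
      · rw [htx]
        simp
      · rw [htx] at hh
        simp only [Sum.inr.injEq] at hh
        exact ⟨K, by rw [hh]⟩
      · constructor
        · intro he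
          exact absurd (hK i hi K h he.symm) (lt_irrefl _)
        · intro he
          exact absurd ⟨i, hi, hix, hri, he⟩ hj

/-! ### Atomic formulas -/

lemma eqs_iff {v : ℕ → DM} (hs : Ok m s) (hv : Realz m s v) {x y : ℕ} (hx : x < m) (hy : y < m) :
    Eqs s x y ↔ v x = v y := by
  unfold Eqs
  rcases h1 : s.v x with a | a
  · rw [(hv.num x hx a).1 h1]
    constructor
    · rintro ⟨h2, _⟩
      rw [(hv.num y hy a).1 h2.symm]
    · intro h2
      refine ⟨((hv.num y hy a).2 h2.symm).symm, hs.norm x hx y hy (Or.inl ?_)⟩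
      rw [h1]; rfl
  · obtain ⟨k, hk⟩ := hv.node x hx a h1
    have hr : (s.v x).isRight := by rw [h1]; rfl
    rcases h2 : s.v y with b | b
    · rw [(hv.num y hy b).1 h2, hk]
      simp
    · have hr' : (s.v y).isRight := by rw [h2]; rfl
      rw [hv.eqv x hx y hy hr hr']
      constructor
      · exact fun h => h.2
      · intro h
        refine ⟨?_, h⟩
        rw [← h1, ← h2]
        exact hs.val x hx y hy hr hr' h

lemma eqs_iff' {v : ℕ → DM} (hs : Ok m s) (hv : Realz m s v) {x y : ℕ} (hx : x < m) (hy : y < m) :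
    Eqs s x y ↔ v y = v x := (eqs_iff hs hv hx hy).trans eq_comm

/-- MODULE B1 -/
theorem transfer (hE : ExtT) : TransferT := by
  intro m φ
  induction φ with
  | bot => intro _ _ s v _ _; exact Iff.rfl
  | eq x y =>
    intro hm _ s v hs hv
    exact eqs_iff hs hv hm.1 hm.2
  | zero x =>
    intro hm _ s v hs hv
    exact hv.num x hm 0
  | succ x y =>
    intro hm _ s v hs hv
    change SuccS s x y ↔ v y = Dsucc (v x)
    unfold SuccS
    rcases h1 : s.v x with a | a
    · rw [(hv.num x hm.1 a).1 h1]
      exact hv.num y hm.2 (a + 1)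
    · obtain ⟨k, hk⟩ := hv.node x hm.1 a h1
      have e : Dsucc (v x) = v x := by rw [hk]; rfl
      rw [e]
      exact eqs_iff' hs hv hm.1 hm.2
  | add x y z =>
    intro hm _ s v hs hv
    change AddS s x y z ↔ v z = Dadd (v x) (v y)
    unfold AddS
    rcases h1 : s.v x with a | a
    · rcases h2 : s.v y with b | b
      · rw [(hv.num x hm.1 a).1 h1, (hv.num y hm.2.1 b).1 h2]
        exact hv.num z hm.2.2 (a + b)
      · obtain ⟨k, hk⟩ := hv.node y hm.2.1 b h2
        have e : Dadd (v x) (v y) = v y := by
          rw [(hv.num x hm.1 a).1 h1, hk]; rfl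
        rw [e]
        exact eqs_iff' hs hv hm.2.1 hm.2.2
    · obtain ⟨k, hk⟩ := hv.node x hm.1 a h1
      rcases h2 : s.v y with b | b
      · have e : Dadd (v x) (v y) = v x := by
          rw [(hv.num y hm.2.1 b).1 h2, hk]; rfl
        rw [e]
        exact eqs_iff' hs hv hm.1 hm.2.2
      · obtain ⟨k', hk'⟩ := hv.node y hm.2.1 b h2
        have e : Dadd (v x) (v y) = v y := by
          rw [hk, hk']; rfl
        rw [e]
        exact eqs_iff' hs hv hm.2.1 hm.2.2
  | mul x y z =>
    intro hm _ s v hs hv
    change MulS s x y z ↔ v z = Dmul (v x) (v y)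
    unfold MulS
    rcases h1 : s.v x with a | a
    · rcases h2 : s.v y with b | b
      · rw [(hv.num x hm.1 a).1 h1, (hv.num y hm.2.1 b).1 h2]
        exact hv.num z hm.2.2 (a * b)
      · obtain ⟨k, hk⟩ := hv.node y hm.2.1 b h2
        have e : Dmul (v x) (v y) = v y := by
          rw [(hv.num x hm.1 a).1 h1, hk]; rfl
        rw [e]
        exact eqs_iff' hs hv hm.2.1 hm.2.2
    · obtain ⟨k, hk⟩ := hv.node x hm.1 a h1
      rcases h2 : s.v y with b | b
      · by_cases hb : b = 0
        · have e : Dmul (v x) (v y) = .inl 0 := by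
            rw [(hv.num y hm.2.1 b).1 h2, hk]
            simp [Dmul, hb]
          rw [e]
          simp only [if_pos hb]
          exact hv.num z hm.2.2 0
        · have e : Dmul (v x) (v y) = v x := by
            rw [(hv.num y hm.2.1 b).1 h2, hk]
            simp [Dmul, hb]
          rw [e]
          simp only [if_neg hb]
          exact eqs_iff' hs hv hm.1 hm.2.2
      · obtain ⟨k', hk'⟩ := hv.node y hm.2.1 b h2
        have e : Dmul (v x) (v y) = v x := by
          rw [hk, hk']; rfl
        rw [e]
        exact eqs_iff' hs hv hm.1 hm.2.2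
  | op i a b c d =>
    intro hm hi s v hs hv
    change OpP s i a b c ↔ Dop i (v a) (v b) (v c)
    change 4 ≤ i at hi
    match i, hi with
    | 4, _ =>
      change (∃ p q, s.v a = .inl p ∧ s.v b = .inl q ∧ Erel p q) ↔
        ∃ p q, v a = .inl p ∧ v b = .inl q ∧ Erel p q
      refine exists₂_congr fun p q => ?_
      rw [hv.num a hm.1 p, hv.num b hm.2.1 q]
    | 5, _ =>
      change (∃ p q r, s.v a = .inl p ∧ s.v b = .inl q ∧ s.v c = .inl r ∧ Crel p q r) ↔
        ∃ p q r, v a = .inl p ∧ v b = .inl q ∧ v c = .inl r ∧ Crel p q r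
      refine exists₃_congr fun p q r => ?_
      rw [hv.num a hm.1 p, hv.num b hm.2.1 q, hv.num c hm.2.2.1 r]
    | (n + 6), _ => exact Iff.rfl
  | imp φ ψ ih ih' =>
    intro hm hl s v hs hv
    change (Tru m φ s → Tru m ψ s) ↔ (Fm.Sat D φ v → Fm.Sat D ψ v)
    rw [ih hm.1 hl.1 s v hs hv, ih' hm.2 hl.2 s v hs hv]
  | all x φ ih =>
    intro hm hl s v hs hv
    change (∀ t, Ok m t → Agr m x s t → Tru m φ t) ↔ ∀ a : DM, Fm.Sat D φ (upd v x a)
    constructor
    · intro h a
      obtain ⟨t, h1, h2, h3⟩ := exists_state hE hs hm.1 hv a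
      exact (ih hm.2 hl t _ h1 h3).1 (h t h1 h2)
    · intro h t h1 h2
      obtain ⟨a, ha⟩ := exists_value hs h1 hm.1 h2 hv
      exact (ih hm.2 hl t _ h1 ha).2 (h a)

/-- MODULE B2 -/
theorem exRealz : ExRealzT := by
  intro m s hs
  refine ⟨fun i => match s.v i with
    | .inl a => .inl a
    | .inr h => .inr (rep m s i, h), ?_⟩
  constructor
  · intro i hi a
    rcases h : s.v i with b | b
    · simp
    · simp
  · intro i hi h hh
    rw [hh]
    exact ⟨_, rfl⟩
  · intro i hi j hj hri hrj
    rcases h : s.v i with b | b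
    · rw [h] at hri; simp at hri
    · rcases h' : s.v j with b' | b'
      · rw [h'] at hrj; simp at hrj
      · simp only [Sum.inr.injEq, Prod.mk.injEq]
        constructor
        · intro he
          exact eq_of_rep hs hi hj hri hrj he.1
        · intro hc
          refine ⟨rep_eq hs hi hj hri hrj hc, ?_⟩
          have h1 := hs.val i hi j hj hri hrj hc
          rw [h, h'] at h1
          simpa using h1

end Pool.Agent.J6H49.BC
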