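import Pool.Agent.J6H49.BC.Stm

/-!
Module B3 of MP_8ec908_lc (helper49): the axioms `TE` hold in the real structure.
-/

set_option autoImplicit false

namespace Pool.Agent.J6H49.BC

open Pool.Agent.TH672 (Fm Str upd varStr num digits LogK ReplK Sw Pv upd_same upd_ne)
open Pool.Agent.TH636.BC (Fml Step IsProof str strs Proves code blk inst robinson Arith PrRel
  Numerates con conAt Cx lt col Ef Cf TE hd bs tl appn St Ok Agr Eqs Erel Crel AddS MulS SuccS Vlt)
open Pool.Agent.TH197.J1545 (D DM Dop Dadd Dmul Dsucc sat_robinson num_app num_snoc digits_zero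
  digits_odd digits_even)
open Pool.Agent.TH838.J1549 (Q exists_Q sat_inst free_inst)

lemma exists_QD : Nonempty (Q D) :=
  exists_Q (fun _ => .inl 0) fun ψ hψ => sat_robinson ψ hψ _

lemma QD_o (q : Q D) : q.o = .inl 0 := ((q.zero_iff (.inl 0)).1 rfl).symm

lemma QD_s (q : Q D) (x : DM) : q.s x = Dsucc x := ((q.succ_iff x (Dsucc x)).1 rfl).symm

lemma QD_nm (q : Q D) (n : ℕ) : q.nm n = .inl n := by
  induction n with
  | zero => exact QD_o q
  | succ n ih =>
    change q.s (q.nm n) = _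
    rw [ih, QD_s]
    rfl

/-- the numerals in the real structure -/
lemma sat_instD {φ : Fml} {x : ℕ} (hx : 2 ≤ x) (h0 : ¬ φ.Free 0) (h1 : ¬ φ.Free 1)
    (n : ℕ) (v : ℕ → DM) : Fm.Sat D (inst x n φ) v ↔ Fm.Sat D φ (upd v x (.inl n)) := by
  obtain ⟨q⟩ := exists_QD
  rw [sat_inst q hx h0 h1, QD_nm]

lemma sat_appn (σ : List Bool) {ψ : Fml} (h0 : ¬ ψ.Free 0) (h1 : ¬ ψ.Free 1) (v : ℕ → DM) :
    Fm.Sat D (appn σ ψ) v ↔ Fm.Sat D ψ (upd (upd (upd (upd v 21 (.inl (2 ^ σ.length))) 23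
      (.inl (num σ))) 25 (Dmul (.inl (2 ^ σ.length)) (v 17))) 27
        (Dadd (Dmul (.inl (2 ^ σ.length)) (v 17)) (.inl (num σ)))) := by
  have h : ∀ y, y ≤ 1 → ¬ ψ.Free y → ¬ (Fm.all 25 ((Fm.mul 21 17 25).imp
      (Fm.all 27 ((Fm.add 25 23 27).imp ψ)))).Free y := by
    intro y hy h h'
    simp only [Fm.Free] at h'
    obtain ⟨_, h' | ⟨_, h' | h'⟩⟩ := h'
    · omega
    · omega
    · exact h h'
  unfold appn
  rw [sat_instD (by norm_num), sat_instD (by norm_num)]
  · change (∀ a : DM, a = _ → ∀ b : DM, b = _ → Fm.Sat D ψ _) ↔ _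
    simp [upd]
  · exact h 0 (by norm_num) h0
  · exact h 1 le_rfl h1
  · exact fun h' => h 0 (by norm_num) h0 (free_inst h').2.2
  · exact fun h' => h 1 le_rfl h1 (free_inst h').2.2

lemma erel_zero : Erel 0 (num hd) := by
  unfold Erel
  simp

lemma erel_succ {p w : ℕ} (h : Erel p w) : Erel (p + 1) (2 ^ bs.length * w + num bs) := by
  unfold Erel at h ⊢
  rw [h, ← num_app, List.replicate_succ', List.flatten_append, List.append_assoc]
  simp

lemma crel_zero {p w : ℕ} (h : Erel p w) : Crel p 0 (2 ^ tl.length * w + num tl) := by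
  unfold Erel at h
  unfold Crel
  rw [h, ← num_app, digits_zero, List.append_nil]

lemma crel_odd {p z w : ℕ} (h : Crel p z w) : Crel p (z + z + 1) (w + w + 1) := by
  unfold Crel at h ⊢
  rw [← two_mul z, digits_odd, ← List.append_assoc, num_snoc, ← h, if_neg (by simp), two_mul]

lemma crel_even {p z w : ℕ} (h : Crel p z w) : Crel p (z + z + 1 + 1) (w + w + 1 + 1) := by
  unfold Crel at h ⊢
  rw [← two_mul z, add_assoc (2 * z), digits_even, ← List.append_assoc, num_snoc, ← h,
    if_pos rfl, two_mul]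

/-- MODULE B3 -/
theorem te : TET := by
  intro φ hφ v
  simp only [TE, List.mem_cons, List.not_mem_nil, or_false] at hφ
  rcases hφ with rfl | rfl | rfl | rfl | rfl
  · intro a ha
    rw [sat_instD (by norm_num) (by simp [Ef, Fm.Free]) (by simp [Ef, Fm.Free])]
    change upd v 15 a 15 = .inl 0 at ha
    rw [upd_same] at ha
    subst ha
    change ∃ p q, _ ∧ _ ∧ _
    exact ⟨0, num hd, by simp [upd], by simp [upd], erel_zero⟩
  · intro a b hab c hc
    rw [sat_appn _ (by simp [Ef, Fm.Free]) (by simp [Ef, Fm.Free])]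
    obtain ⟨p, w, h1, h2, h3⟩ := hab
    change _ = Dsucc _ at hc
    simp [upd] at h1 h2 hc
    subst h1 h2 hc
    exact ⟨p + 1, 2 ^ bs.length * w + num bs, by simp [upd, Dsucc], by simp [upd, Dmul, Dadd],
      erel_succ h3⟩
  · intro a b hab c hc
    rw [sat_appn _ (by simp [Cf, Fm.Free]) (by simp [Cf, Fm.Free])]
    obtain ⟨p, w, h1, h2, h3⟩ := hab
    change _ = Sum.inl 0 at hc
    simp [upd] at h1 h2 hc
    subst h1 h2 hc
    exact ⟨p, 0, 2 ^ tl.length * w + num tl, by simp [upd], by simp [upd],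
      by simp [upd, Dmul, Dadd], crel_zero h3⟩
  · intro a b c habc d hd e he f hf g hg
    obtain ⟨p, z, w, h1, h2, h3, h4⟩ := habc
    change _ = Dadd _ _ at hd
    change _ = Dsucc _ at he
    change _ = Dadd _ _ at hf
    change _ = Dsucc _ at hg
    simp [upd] at h1 h2 h3 hd he hf hg
    subst h1 h2 h3 hd he hf hg
    exact ⟨p, z + z + 1, w + w + 1, by simp [upd], by simp [upd, Dsucc, Dadd],
      by simp [upd, Dsucc, Dadd], crel_odd h4⟩
  · intro a b c habc d hd e he e' he' f hf g hg g' hg'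
    obtain ⟨p, z, w, h1, h2, h3, h4⟩ := habc
    change _ = Dadd _ _ at hd
    change _ = Dsucc _ at he
    change _ = Dsucc _ at he'
    change _ = Dadd _ _ at hf
    change _ = Dsucc _ at hg
    change _ = Dsucc _ at hg'
    simp [upd] at h1 h2 h3 hd he he' hf hg hg'
    subst h1 h2 h3 hd he he' hf hg hg'
    exact ⟨p, z + z + 1 + 1, w + w + 1 + 1, by simp [upd], by simp [upd, Dsucc, Dadd],
      by simp [upd, Dsucc, Dadd], crel_even h4⟩

end Pool.Agent.J6H49.BC
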