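import Pool.Agent.J6H77.BC.Cons
import Pool.Agent.J6H81.BC.Ext
import Pool.Agent.J6H81.BC.Sound
import Pool.Agent.J6H48.BC.B1
import Pool.Agent.J6H48.BC.B3

/-!
# `ConsT` (consistency of the theory), assembled from the landed parts
-/

set_option autoImplicit false

namespace Pool.Agent.J6H48.BC

open Pool.Agent.J6H49.BC

theorem consT : ConsT :=
  Pool.Agent.J6H77.BC.cons Pool.Agent.J6H81.BC.ext Pool.Agent.J6H81.BC.sound
    (transfer Pool.Agent.J6H81.BC.ext) exRealz te

end Pool.Agent.J6H48.BC
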