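import Pool.Agent.J6H63.BC.D3b1
import Pool.Agent.J6H49.BC.Stm4

/-!
# Module G2: the end of the proof with dyadic numerals
-/

set_option autoImplicit false

namespace Pool.Agent.J6H48.BC

open Pool.Agent.TH672 (Fm LogK ReplK Sw)
open Pool.Agent.TH636.BC (Fml blk inst lt col)
open Pool.Agent.J6H49.BC
open Pool.Agent.J6H92.BC
open Pool.Agent.J6H63.BC

theorem g2 : G2T := by
  intro Y c hY hc hb
  refine ⟨sz Y + 3000, fun C hC n G hG hG' => ?_⟩
  set s := C * (n + 1) ^ 3 with hs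
  set l := C * (n + 1) with hl
  have hS : cs (chain n) + (sz Y + 2500) + 300 * (n + 1) ≤ s := size_bound (by omega) le_rfl
  have hll : n + 20 ≤ l := by rw [hl]; nlinarith
  have hdn : dn n = 42 + 6 * n := rfl
  clear_value s l
  clear hs hl
  have hc4 : 2 ≤ c + 4 := by omega
  have hc4' : 4 ≤ c + 4 := by omega
  have hs3 : 247 + 3 * 3 ≤ s := by linarith
  have hs3' : 287 + 3 * 3 ≤ s := by linarith
  have hsn : 247 + 3 * dn n ≤ s := by linarith
  have hsn' : 287 + 3 * dn n ≤ s := by linarith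
  have bY : BB (c + 4) Y := hb.mono (by omega)
  have bW : ∀ t, BB (c + 4) (Wn t) := fun t => (bb_Wn t).mono (by omega)
  have sW3 : sz (Wn 3) = 334 := by rw [sz_Wn]
  have sWn := sz_Wn (dn n)
  have wch : ∀ g ∈ chain n, W (c + 4) s g := fun g hg =>
    ⟨chain_bb hg, (chain_sz hg).trans (by omega)⟩
  have wE : W (c + 4) s (Fm.eq 3 (dn n)) := ⟨bb_eq _ _ _, by rw [sz_eq]; omega⟩
  have wW3 : W (c + 4) s (Wn 3) := ⟨bW _, by omega⟩
  have wcol : W (c + 4) s (col 33 35 37) := ⟨bb_op _ _ _ _ _ _, by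
    simp only [col, sz_op]; omega⟩
  have ca : ∀ {L : List Fml}, (∀ g ∈ L, W (c + 4) s g) → ∀ g ∈ chain n ++ L, W (c + 4) s g := by
    intro L hL g hg
    rcases List.mem_append.1 hg with hg | hg
    · exact wch g hg
    · exact hL g hg
  -- the context with three hypotheses
  have w3 : ∀ g ∈ ([.eq 3 (dn n), Wn 3, col 33 35 37] : List Fml), W (c + 4) s g := by
    intro g hg
    simp only [List.mem_cons, List.not_mem_nil, or_false] at hg
    rcases hg with rfl | rfl | rfl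
    · exact wE
    · exact wW3
    · exact wcol
  have hlen3 : (chain n ++ [.eq 3 (dn n), Wn 3, col 33 35 37] : List Fml).length ≤ l := by
    simp only [List.length_append, chain_len, List.length_cons, List.length_nil]; omega
  have hyp3 : ∀ g ∈ ([.eq 3 (dn n), Wn 3, col 33 35 37] : List Fml),
      ND WB (c + 4) s l G 1 (chain n ++ [.eq 3 (dn n), Wn 3, col 33 35 37]) g :=
    fun g hg => .hyp hlen3 (ca w3) (List.mem_append_right _ hg)
  have thm3 : ∀ g, W (c + 4) s g → LogK g →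
      ND WB (c + 4) s l G 1 (chain n ++ [.eq 3 (dn n), Wn 3, col 33 35 37]) g :=
    fun g hg h => .thm hlen3 (ca w3) hg (.inr (.inr h))
  -- the instances of `Wn 3`
  have wi0 : W (c + 4) s (.imp (col 33 35 37) (lt 37 3)) :=
    ⟨(bb_cl _).mono (by omega), (sz_cl _).le.trans (by omega)⟩
  have wi1 : W (c + 4) s (.all 37 (.imp (col 33 35 37) (lt 37 3))) :=
    ⟨(bb_cl1 3).mono hc4, (sz_cl1 3).le.trans hs3⟩
  have wi2 : W (c + 4) s (.all 35 (.all 37 (.imp (col 33 35 37) (lt 37 3)))) :=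
    ⟨(bb_cl2 3).mono hc4', (sz_cl2 3).le.trans hs3'⟩
  have a0 : ND WB (c + 4) s l G 1 (chain n ++ [.eq 3 (dn n), Wn 3, col 33 35 37])
      (.all 33 (.all 35 (.all 37 (.imp (col 33 35 37) (lt 37 3))))) := hyp3 (Wn 3) (by simp)
  have a1 := ND_allE_self (ND_allE_self (ND_allE_self a0 wi2) wi1) wi0
  have a2 := a1.mp (hyp3 (col 33 35 37) (by simp))
  have b3 := (thm3 (.imp (.eq 3 (dn n)) (.imp (lt 37 3) (lt 37 (dn n))))
    ⟨(bb_eq _ _ _).imp ((bb_op _ _ _ _ _ _).imp (bb_op _ _ _ _ _ _)), by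
      simp only [lt, sz_imp, sz_eq, sz_op]; omega⟩
    (.repl 3 (dn n) _ _ (.op (.inl rfl) (.inr ⟨rfl, rfl⟩) (.inr ⟨rfl, rfl⟩) (.inr ⟨rfl, rfl⟩)))).mp
    (hyp3 (.eq 3 (dn n)) (by simp))
  have b4 := b3.mp a2
  -- back to two hypotheses
  have e3 : (chain n ++ [.eq 3 (dn n), Wn 3, col 33 35 37] : List Fml) =
      (chain n ++ [.eq 3 (dn n), Wn 3]) ++ [col 33 35 37] := by simp
  rw [e3] at b4
  have wj0 : W (c + 4) s (.imp (col 33 35 37) (lt 37 (dn n))) :=
    ⟨(bb_cl _).mono (by omega), (sz_cl _).le.trans (by omega)⟩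
  have wj1 : W (c + 4) s (.all 37 (.imp (col 33 35 37) (lt 37 (dn n)))) :=
    ⟨(bb_cl1 _).mono hc4, (sz_cl1 _).le.trans hsn⟩
  have wj2 : W (c + 4) s (.all 35 (.all 37 (.imp (col 33 35 37) (lt 37 (dn n))))) :=
    ⟨(bb_cl2 _).mono hc4', (sz_cl2 _).le.trans hsn'⟩
  have wj3 : W (c + 4) s (Wn (dn n)) := ⟨bW _, by omega⟩
  have hfree : ∀ x, 30 ≤ x → x < 40 →
      ∀ g ∈ (chain n ++ [.eq 3 (dn n), Wn 3] : List Fml), ¬ g.Free x := by
    intro x h1 h2 g hg h
    rcases List.mem_append.1 hg with hg | hg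
    · have := chain_free hg h; omega
    · simp only [List.mem_cons, List.not_mem_nil, or_false] at hg
      rcases hg with rfl | rfl
      · simp only [Fm.Free] at h; omega
      · simp only [Wn, col, lt, Fm.Free] at h; omega
  have c0 := ND.impI b4 wj0
  have c1 := c0.allI (x := 37) (hfree 37 (by omega) (by omega)) wj1
  have c2 := c1.allI (x := 35) (hfree 35 (by omega) (by omega)) wj2
  have c3 : ND WB (c + 4) s l G 18 (chain n ++ [.eq 3 (dn n), Wn 3]) (Wn (dn n)) :=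
    (c2.allI (x := 33) (hfree 33 (by omega) (by omega)) wj3).up (by omega)
  -- the available formula
  have w2 : ∀ g ∈ ([Wn (dn n)] : List Fml), W (c + 4) s g := by
    intro g hg
    rw [List.mem_singleton] at hg
    rw [hg]; exact wj3
  have wG : W (c + 4) s (imps (chain n ++ [Wn (dn n)]) .bot) :=
    ⟨BB.imps (fun g hg => (ca w2 g hg).bb) (bb_bot _), by
      simp only [sz_imps, cs_append, cs_cons, cs_nil, sz_bot]; omega⟩
  have hΔ2 := ND_wfs c3
  have d1 : ND WB (c + 4) s l G 1 (chain n ++ [.eq 3 (dn n), Wn 3])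
      (imps (chain n ++ [Wn (dn n)]) .bot) := .thm hΔ2.1 hΔ2.2.1 wG (.inl hG)
  have d2 := ND_mps (M := 18) d1 fun g hg => by
    rcases List.mem_append.1 hg with hg | hg
    · exact (ND_ctx d1 (List.mem_append_left _ hg)).up (by omega)
    · rw [List.mem_singleton] at hg
      rw [hg]; exact c3
  -- back to one hypothesis
  have e2 : (chain n ++ [.eq 3 (dn n), Wn 3] : List Fml) =
      (chain n ++ [.eq 3 (dn n)]) ++ [Wn 3] := by simp
  rw [e2] at d2
  have wX : W (c + 4) s XX := ⟨by rw [XX_eq]; exact (bW 3).imp (bb_bot _), by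
    rw [XX_eq]; simp only [sz_imp, sz_bot]; omega⟩
  have f1 : ND WB (c + 4) s l G _ (chain n ++ [.eq 3 (dn n)]) XX := ND.impI d2 wX
  have hΔ1 := ND_wfs f1
  have sX : sz XX = 342 := by rw [XX_eq]; simp only [sz_imp, sz_bot]; omega
  have bXY : BB c (XX.imp Y) := by
    rw [XX_eq]
    exact (((bb_Wn 3).mono (by omega)).imp (bb_bot _)).imp hb
  have wXY : W (c + 4) s (XX.imp Y) := ⟨bXY.mono (by omega), by simp only [sz_imp]; omega⟩
  have wA : W (c + 4) s (.all 3 (XX.imp Y)) := ⟨(bXY.all 3).mono (by omega), by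
    simp only [sz_all, sz_imp]; omega⟩
  have f2 : ND WB (c + 4) s l G 1 (chain n ++ [.eq 3 (dn n)]) (.all 3 (XX.imp Y)) :=
    .thm hΔ1.1 hΔ1.2.1 wA (.inl hG')
  have f3 := (ND_allE_self f2 wXY).mp f1
  have w1 : ∀ g ∈ ([.eq 3 (dn n)] : List Fml), W (c + 4) s g := by
    intro g hg
    rw [List.mem_singleton] at hg
    rw [hg]; exact wE
  have wJ : W (c + 4) s (imps (chain n ++ [.eq 3 (dn n)]) Y) :=
    ⟨BB.imps (fun g hg => (ca w1 g hg).bb) bY, by
      simp only [sz_imps, cs_append, cs_cons, cs_nil, sz_eq]; omega⟩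
  have J := ND_impIs (Δ := []) (L := chain n ++ [.eq 3 (dn n)]) f3 wJ
  refine J.up ?_
  simp only [List.length_append, chain_len, List.length_cons, List.length_nil]
  omega

end Pool.Agent.J6H48.BC
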