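import Pool.Agent.J6H63.BC.D3b1
import Pool.Agent.J6H49.BC.Stm4

/-!
# Module G4: the beginning of the proof with dyadic numerals
-/

set_option autoImplicit false

namespace Pool.Agent.J6H48.BC

open Pool.Agent.TH672 (Fm LogK ReplK Sw digits)
open Pool.Agent.TH636.BC (Fml blk inst lt col robinson Cx)
open Pool.Agent.J6H49.BC
open Pool.Agent.J6H92.BC
open Pool.Agent.J6H63.BC

theorem digits_len (n : ℕ) : (digits n).length ≤ n := by
  induction n using Nat.strong_induction_on with
  | _ n ih =>
    rw [digits]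
    split_ifs with h
    · simp
    · rw [List.length_append, List.length_singleton]
      have := ih ((n - 1) / 2) (by omega)
      omega

theorem digitD_true (x : ℕ) (φ : Fml) : digitD x true φ =
    .all 0 (.imp (.add x x 0) (.all 1 (.imp (.succ 0 1) (.all x (.imp (.succ 1 x) φ))))) := rfl

theorem digitD_false (x : ℕ) (φ : Fml) : digitD x false φ =
    .all 0 (.imp (.add x x 0) (.all x (.imp (.succ 0 x) φ))) := rfl

theorem cx_digits {Y : Fml} {c : ℕ} (h : BB c Y) (x : ℕ) :
    ∀ w : List Bool, Cx false (c + 1) (w.foldr (digitD x) Y) := by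
  intro w
  induction w with
  | nil => exact .lift (h true)
  | cons b w ih =>
    rw [List.foldr_cons]
    cases b
    · rw [digitD_false]
      exact .all (.imp (.add _ _ _ _ _) (.all (.imp (.succ _ _ _ _) ih)))
    · rw [digitD_true]
      exact .all (.imp (.add _ _ _ _ _) (.all (.imp (.succ _ _ _ _) (.all
        (.imp (.succ _ _ _ _) ih)))))

theorem sz_add' (x y z : ℕ) : sz (.add x y z : Fml) = x + y + z + 7 := by
  simp [sz, TH636.BC.str, len_varStr]
  omega

theorem sz_digits (Y : Fml) (w : List Bool) :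
    sz (w.foldr (digitD 3) Y) ≤ sz Y + 100 * w.length := by
  induction w with
  | nil => simp
  | cons b w ih =>
    rw [List.foldr_cons, List.length_cons]
    cases b
    · rw [digitD_false]
      simp only [sz_all, sz_imp, sz_succ, sz_add']
      omega
    · rw [digitD_true]
      simp only [sz_all, sz_imp, sz_succ, sz_add']
      omega

theorem g4 : G4T := by
  intro Y c hY hc hb
  refine ⟨sz Y + 3000, fun C hC n G hG => ?_⟩
  set s := C * (n + 1) ^ 3 with hs
  set l := C * (n + 1) with hl
  have hS : cs (chain n) + (sz Y + 2500) + 300 * (n + 1) ≤ s := size_bound (by omega) le_rfl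
  have hll : n + 20 ≤ l := by rw [hl]; nlinarith
  have hd0 : dn 0 = 42 := rfl
  clear_value s l
  clear hs hl
  obtain ⟨R, hR⟩ : ∃ R, (digits n).foldr (digitD 3) Y = R := ⟨_, rfl⟩
  have cR : Cx false (c + 1) R := by rw [← hR]; exact cx_digits hb 3 _
  have bR : BB (c + 4) R := BB.mono (c := c + 2) (fun _ => .lift cR) (by omega)
  have sR : sz R ≤ sz Y + 100 * n := by
    have h1 := sz_digits Y (digits n)
    have h2 := digits_len n
    rw [hR] at h1
    omega
  have hinst : instD 3 n Y = .all 3 (.imp (.zero 3) R) := by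
    unfold instD
    rw [hR]
  rw [hR] at hG
  rw [hinst]
  have wch : ∀ g ∈ chain n, W (c + 4) s g := fun g hg =>
    ⟨chain_bb hg, (chain_sz hg).trans (by omega)⟩
  have wZ : W (c + 4) s (Fm.zero 3) := ⟨bb_zero _ _, by rw [sz_zero]; omega⟩
  have wE : W (c + 4) s (Fm.eq 3 (dn 0)) := ⟨bb_eq _ _ _, by rw [sz_eq]; omega⟩
  have wctx : ∀ g ∈ chain n ++ [Fm.zero 3], W (c + 4) s g := by
    intro g hg
    rcases List.mem_append.1 hg with hg | hg
    · exact wch g hg
    · rw [List.mem_singleton] at hg
      rw [hg]; exact wZ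
  have hlen : (chain n ++ [Fm.zero 3] : List Fml).length ≤ l := by
    simp only [List.length_append, chain_len, List.length_cons, List.length_nil]; omega
  -- the uniqueness of zero
  have b0 : BB 0 (.imp (.zero 0) (.imp (.zero 1) (.eq 0 1)) : Fml) :=
    (bb_zero _ _).imp ((bb_zero _ _).imp (bb_eq _ _ _))
  have u0 : ND WB (c + 4) s l G 1 (chain n ++ [Fm.zero 3])
      (.all 0 (.all 1 (.imp (.zero 0) (.imp (.zero 1) (.eq 0 1))))) := by
    refine .thm hlen wctx ⟨((b0.all 1).all 0).mono (by omega), ?_⟩ (.inr (.inl ?_))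
    · simp only [sz_all, sz_imp, sz_zero, sz_eq]; omega
    · unfold WB
      refine List.mem_append_left _ (List.mem_append_left _ ?_)
      simp [robinson]
  have u1 := u0.allE 3 (.inr (.inr ⟨by decide, trivial, trivial, trivial⟩)) (by
    refine ⟨?_, ?_⟩
    · simp only [Fm.subst, Pool.Agent.TH672.Form.ren]
      exact (((bb_zero _ _).imp ((bb_zero _ _).imp (bb_eq _ _ _))).all 1).mono
        (show 0 + 2 ≤ c + 4 by omega)
    · simp [Fm.subst, Pool.Agent.TH672.Form.ren]
      omega)
  have e1 : (Fm.all 1 (.imp (.zero 0) (.imp (.zero 1) (.eq 0 1))) : Fml).subst 0 3 =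
      .all 1 (.imp (.zero 3) (.imp (.zero 1) (.eq 3 1))) := by
    simp [Fm.subst, Pool.Agent.TH672.Form.ren]
  rw [e1] at u1
  have u2 := u1.allE (dn 0) ⟨trivial, trivial, trivial⟩ (by
    refine ⟨?_, ?_⟩
    · simp only [Fm.subst, Pool.Agent.TH672.Form.ren]
      exact (bb_zero _ _).imp ((bb_zero _ _).imp (bb_eq _ _ _))
    · simp [Fm.subst, Pool.Agent.TH672.Form.ren]
      omega)
  have e2 : (.imp (.zero 3) (.imp (.zero 1) (.eq 3 1)) : Fml).subst 1 (dn 0) =
      .imp (.zero 3) (.imp (.zero (dn 0)) (.eq 3 (dn 0))) := by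
    simp [Fm.subst, Pool.Agent.TH672.Form.ren]
  rw [e2] at u2
  have hz3 : ND WB (c + 4) s l G 1 (chain n ++ [Fm.zero 3]) (.zero 3) :=
    .hyp hlen wctx (by simp)
  have hz0 : ND WB (c + 4) s l G 1 (chain n ++ [Fm.zero 3]) (.zero (dn 0)) :=
    .hyp hlen wctx (List.mem_append_left _ (by unfold chain; simp))
  have u3 := (u2.mp hz3).mp hz0
  -- the available formula
  have wG : W (c + 4) s (imps (chain n ++ [Fm.eq 3 (dn 0)]) R) :=
    ⟨BB.imps (fun g hg => by
      rcases List.mem_append.1 hg with hg | hg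
      · exact (wch g hg).bb
      · rw [List.mem_singleton] at hg
        rw [hg]; exact wE.bb) bR, by
      simp only [sz_imps, cs_append, cs_cons, cs_nil, sz_eq]; omega⟩
  have d1 : ND WB (c + 4) s l G 1 (chain n ++ [Fm.zero 3])
      (imps (chain n ++ [Fm.eq 3 (dn 0)]) R) := .thm hlen wctx wG (.inl hG)
  have d2 := ND_mps (M := 10) d1 fun g hg => by
    rcases List.mem_append.1 hg with hg | hg
    · exact (ND_ctx d1 (List.mem_append_left _ hg)).up (by omega)
    · rw [List.mem_singleton] at hg
      rw [hg]; exact u3.up (by omega)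
  have wi : W (c + 4) s (.imp (.zero 3) R) := ⟨(bb_zero _ _).imp bR, by
    simp only [sz_imp, sz_zero]; omega⟩
  have wa : W (c + 4) s (.all 3 (.imp (.zero 3) R)) :=
    ⟨(BB.all' (.imp (.zero _ _ _) cR) 3).mono (by omega), by
      simp only [sz_all, sz_imp, sz_zero]; omega⟩
  have f1 := ND.impI d2 wi
  have f2 := f1.allI (x := 3) (fun g hg h => by
    have := chain_free hg h
    omega) wa
  have wJ : W (c + 4) s (imps (chain n) (.all 3 (.imp (.zero 3) R))) :=
    ⟨BB.imps (fun g hg => (wch g hg).bb) wa.bb, by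
      simp only [sz_imps, sz_all, sz_imp, sz_zero]; omega⟩
  have J := ND_impIs (Δ := []) (L := chain n) f2 wJ
  refine J.up ?_
  simp only [List.length_append, chain_len, List.length_cons, List.length_nil]
  omega

end Pool.Agent.J6H48.BC
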